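import Pool.Agent.Run7.h432.LV.Stm

/-!
# Piece NIL of project LV
-/

set_option autoImplicit false

namespace Run7.h824.LV

open Run7.h432.LV

universe u

theorem t_NIL (hZC : S_ZC.{u}) (hVX : S_VX.{u}) : S_NIL.{u} := by
  intro U _ I _ m hm hC hP w w' hw hw' x y hx hy c s hs z hz
  obtain ⟨h1, h2, h3⟩ := hVX U m w w' hw hw' c
  have h := hZC U I m hm hC hP ((Fin m ⊕ Fin m) ⊕ Unit) _ h1
    (fun i : Fin m => Sum.inl (Sum.inl i)) (fun i : Fin m => Sum.inl (Sum.inr i))
    (fun i j hij => Sum.inl_injective (Sum.inl_injective hij))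
    (fun i j hij => Sum.inr_injective (Sum.inl_injective hij))
    (fun i j hij => Sum.inl_ne_inr (Sum.inl_injective hij)) h2 h3 (Sum.inr ())
    (by rintro ⟨i, hi⟩; exact Sum.inl_ne_inr hi) (by rintro ⟨i, hi⟩; exact Sum.inl_ne_inr hi)
    s hs (Sum.elim (Sum.elim x y) (fun _ => z)) hx hy hz
  simpa [Function.update] using h

end Run7.h824.LV
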